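import Pool.Agent.Helper49.Abund.Mean1

/-!
# Mean value inequality for `|f|^q` on discs
-/

open MeasureTheory Metric Set Filter Topology Real

open scoped ENNReal

namespace Pool.Agent.Helper49.Abund

theorem circle_lintegral {f : ℂ → ℂ} {c : ℂ} {R : ℝ} (hR : 0 < R)
    (hf : AnalyticOnNhd ℂ f (closedBall c R)) {q : ℝ} (hq : 0 < q) :
    ∫⁻ _ in Ioo (-π) π, ENNReal.ofReal (‖f c‖ ^ q) ≤
      ∫⁻ θ in Ioo (-π) π, ENNReal.ofReal (‖f (circleMap c R θ)‖ ^ q) := by
  have hcont : Continuous fun θ : ℝ => ‖f (circleMap c R θ)‖ ^ q := by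
    have h1 : Continuous fun θ : ℝ => f (circleMap c R θ) := by
      refine continuous_iff_continuousAt.mpr fun θ => ?_
      have h2 : ContinuousAt f (circleMap c R θ) :=
        (hf _ (sphere_subset_closedBall (circleMap_mem_sphere c hR.le θ))).continuousAt
      exact ContinuousAt.comp h2 (continuous_circleMap c R).continuousAt
    exact h1.norm.rpow_const fun x => Or.inr hq.le
  have h1 := circle_mean hR hf hq
  rw [circleAverage_eq_integral_add (-π)] at h1
  have h2 : ∫ θ in (0 : ℝ)..2 * π, ‖f (circleMap c R (θ + -π))‖ ^ q =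
      ∫ θ in (-π)..π, ‖f (circleMap c R θ)‖ ^ q := by
    rw [intervalIntegral.integral_comp_add_right (fun θ => ‖f (circleMap c R θ)‖ ^ q)]
    congr 1
    · ring
    · ring
  rw [h2, intervalIntegral.integral_of_le (by linarith [pi_pos]), integral_Ioc_eq_integral_Ioo,
    smul_eq_mul] at h1
  have h3 : 2 * π * ‖f c‖ ^ q ≤ ∫ θ in Ioo (-π) π, ‖f (circleMap c R θ)‖ ^ q := by
    have hpi : 0 < 2 * π := by positivity
    calc 2 * π * ‖f c‖ ^ q ≤ 2 * π * ((2 * π)⁻¹ * ∫ θ in Ioo (-π) π,
          ‖f (circleMap c R θ)‖ ^ q) := by gcongr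
      _ = _ := by field_simp
  rw [setLIntegral_const, Real.volume_Ioo, ← ENNReal.ofReal_mul (by positivity)]
  rw [← ofReal_integral_eq_lintegral_ofReal]
  · refine ENNReal.ofReal_le_ofReal ?_
    have : ‖f c‖ ^ q * (π - -π) = 2 * π * ‖f c‖ ^ q := by ring
    rw [this]
    exact h3
  · exact (hcont.integrableOn_Icc (a := -π) (b := π)).mono_set Ioo_subset_Icc_self
  · exact Eventually.of_forall fun θ => by positivity

theorem disc_mean {f : ℂ → ℂ} {c : ℂ} {r : ℝ}
    (hf : DifferentiableOn ℂ f (ball c r)) {q : ℝ} (hq : 0 < q) :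
    ENNReal.ofReal (‖f c‖ ^ q) * volume (ball c r)
      ≤ ∫⁻ w in ball c r, ENNReal.ofReal (‖f w‖ ^ q) := by
  classical
  obtain ⟨G, hG⟩ : ∃ G : ℂ → ℝ≥0∞, G = (ball (0 : ℂ) r).indicator
    (fun w => ENNReal.ofReal (‖f (c + w)‖ ^ q)) := ⟨_, rfl⟩
  obtain ⟨H, hH⟩ : ∃ H : ℂ → ℝ≥0∞, H = (ball (0 : ℂ) r).indicator
    (fun _ => ENNReal.ofReal (‖f c‖ ^ q)) := ⟨_, rfl⟩
  have hmem : ∀ w : ℂ, c + w ∈ ball c r ↔ w ∈ ball (0 : ℂ) r := by
    intro w
    simp [mem_ball, dist_eq_norm]
  have hGm : Measurable G := by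
    rw [hG]
    have h1 : ContinuousOn (fun w => ENNReal.ofReal (‖f (c + w)‖ ^ q)) (ball (0 : ℂ) r) := by
      refine ENNReal.continuous_ofReal.comp_continuousOn ?_
      refine ContinuousOn.rpow_const ?_ fun x _ => Or.inr hq.le
      refine ContinuousOn.norm ?_
      refine hf.continuousOn.comp (by fun_prop) ?_
      intro w hw
      exact (hmem w).mpr hw
    have h2 := ContinuousOn.measurable_piecewise (g := fun _ => (0 : ℝ≥0∞)) h1
      continuousOn_const measurableSet_ball
    exact h2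
  have hHm : Measurable H := by
    rw [hH]
    exact measurable_const.indicator measurableSet_ball
  have hL : ENNReal.ofReal (‖f c‖ ^ q) * volume (ball c r) = ∫⁻ w, H w := by
    rw [hH, lintegral_indicator measurableSet_ball, setLIntegral_const,
      Measure.addHaar_ball_center]
  have hRR : ∫⁻ w in ball c r, ENNReal.ofReal (‖f w‖ ^ q) = ∫⁻ w, G w := by
    rw [← lintegral_indicator measurableSet_ball,
      ← lintegral_add_left_eq_self _ c, hG]
    refine lintegral_congr fun w => ?_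
    by_cases hw : w ∈ ball (0 : ℂ) r
    · rw [indicator_of_mem ((hmem w).mpr hw), indicator_of_mem hw]
    · rw [indicator_of_notMem (fun h => hw ((hmem w).mp h)), indicator_of_notMem hw]
  rw [hL, hRR, ← Complex.lintegral_comp_polarCoord_symm, ← Complex.lintegral_comp_polarCoord_symm]
  have htar : polarCoord.target = Ioi (0 : ℝ) ×ˢ Ioo (-π) π := rfl
  have hpm : Measurable fun p : ℝ × ℝ => Complex.polarCoord.symm p := by
    have : (fun p : ℝ × ℝ => Complex.polarCoord.symm p) =
        fun p : ℝ × ℝ => (p.1 : ℂ) * (Real.cos p.2 + Real.sin p.2 * Complex.I) := by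
      funext p
      exact Complex.polarCoord_symm_apply p
    rw [this]
    fun_prop
  have hmeas : ∀ F : ℂ → ℝ≥0∞, Measurable F → Measurable
      (fun p : ℝ × ℝ => ENNReal.ofReal p.1 • F (Complex.polarCoord.symm p)) := by
    intro F hF
    exact (ENNReal.measurable_ofReal.comp measurable_fst).mul (hF.comp hpm)
  rw [htar, Measure.volume_eq_prod, setLIntegral_prod _ (hmeas H hHm).aemeasurable,
    setLIntegral_prod _ (hmeas G hGm).aemeasurable]
  refine setLIntegral_mono' measurableSet_Ioi fun ρ hρ => ?_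
  have hρ0 : (0 : ℝ) < ρ := hρ
  have hnorm : ∀ θ : ℝ, ‖Complex.polarCoord.symm (ρ, θ)‖ = ρ := by
    intro θ
    rw [Complex.norm_polarCoord_symm, abs_of_pos hρ0]
  by_cases hρr : ρ < r
  · have hb : ∀ θ : ℝ, Complex.polarCoord.symm (ρ, θ) ∈ ball (0 : ℂ) r := by
      intro θ
      rw [mem_ball_zero_iff, hnorm]
      exact hρr
    have hcm : ∀ θ : ℝ, c + Complex.polarCoord.symm (ρ, θ) = circleMap c ρ θ := by
      intro θ
      rw [Complex.polarCoord_symm_apply, circleMap, Complex.exp_mul_I]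
      push_cast
      rfl
    have e1 : ∫⁻ θ in Ioo (-π) π, ENNReal.ofReal (ρ, θ).1 • H (Complex.polarCoord.symm (ρ, θ)) =
        ENNReal.ofReal ρ * ∫⁻ _ in Ioo (-π) π, ENNReal.ofReal (‖f c‖ ^ q) := by
      rw [← lintegral_const_mul _ measurable_const]
      refine lintegral_congr fun θ => ?_
      rw [hH, indicator_of_mem (hb θ)]
      rfl
    have hGc : ∀ θ : ℝ, G (Complex.polarCoord.symm (ρ, θ)) =
        ENNReal.ofReal (‖f (circleMap c ρ θ)‖ ^ q) := by
      intro θ
      rw [hG, indicator_of_mem (hb θ), hcm θ]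
    have e2 : ∫⁻ θ in Ioo (-π) π, ENNReal.ofReal (ρ, θ).1 • G (Complex.polarCoord.symm (ρ, θ)) =
        ENNReal.ofReal ρ * ∫⁻ θ in Ioo (-π) π, ENNReal.ofReal (‖f (circleMap c ρ θ)‖ ^ q) := by
      have hm : Measurable fun θ : ℝ => ENNReal.ofReal (‖f (circleMap c ρ θ)‖ ^ q) := by
        have : (fun θ : ℝ => ENNReal.ofReal (‖f (circleMap c ρ θ)‖ ^ q)) =
            fun θ : ℝ => G (Complex.polarCoord.symm (ρ, θ)) := funext fun θ => (hGc θ).symm
        rw [this]
        exact hGm.comp (hpm.comp (measurable_const.prodMk measurable_id))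
      rw [← lintegral_const_mul _ hm]
      refine lintegral_congr fun θ => ?_
      rw [hGc θ]
      rfl
    rw [e1, e2]
    have hfan : AnalyticOnNhd ℂ f (closedBall c ρ) := by
      have := hf.analyticOnNhd isOpen_ball
      exact this.mono (closedBall_subset_ball hρr)
    exact mul_le_mul' le_rfl (circle_lintegral hρ0 hfan hq)
  · have hb : ∀ θ : ℝ, Complex.polarCoord.symm (ρ, θ) ∉ ball (0 : ℂ) r := by
      intro θ
      rw [mem_ball_zero_iff, hnorm]
      exact hρr
    have e1 : ∫⁻ θ in Ioo (-π) π, ENNReal.ofReal (ρ, θ).1 • H (Complex.polarCoord.symm (ρ, θ)) =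
        0 := by
      have e2 : ∀ θ : ℝ, ENNReal.ofReal (ρ, θ).1 • H (Complex.polarCoord.symm (ρ, θ)) = 0 := by
        intro θ
        rw [hH, indicator_of_notMem (hb θ), smul_zero]
      rw [lintegral_congr e2, lintegral_zero]
    rw [e1]
    exact zero_le

end Pool.Agent.Helper49.Abund
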