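import Pool.Agent.Helper49.Abund.Mean2

/-!
# Packet A of MP_97d78d_ag: the mean value inequality for `|f|^q` on polydiscs
-/

open MeasureTheory Metric Set Filter Topology

open scoped ENNReal

namespace Pool.Agent.Helper49.Abund

theorem cons_mem_ball {n : ℕ} (z : Fin (n + 1) → ℂ) {r : ℝ} (hr : 0 < r) (x : ℂ)
    (y : Fin n → ℂ) :
    (Fin.cons x y : Fin (n + 1) → ℂ) ∈ ball z r ↔ x ∈ ball (z 0) r ∧ y ∈ ball (Fin.tail z) r := by
  rw [ball_pi _ hr, ball_pi _ hr, Set.mem_univ_pi, Set.mem_univ_pi, Fin.forall_fin_succ]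
  simp [Fin.tail]

theorem differentiable_cons_right {n : ℕ} (x : ℂ) :
    Differentiable ℂ (fun y : Fin n → ℂ => (Fin.cons x y : Fin (n + 1) → ℂ)) := by
  intro y
  refine differentiableAt_pi.mpr fun i => ?_
  refine Fin.cases ?_ (fun j => ?_) i
  · simp
  · simpa using differentiableAt_apply j y

theorem differentiable_cons_left {n : ℕ} (y : Fin n → ℂ) :
    Differentiable ℂ (fun x : ℂ => (Fin.cons x y : Fin (n + 1) → ℂ)) := by
  intro x
  refine differentiableAt_pi.mpr fun i => ?_
  refine Fin.cases ?_ (fun j => ?_) i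
  · simp
  · simp

theorem continuous_cons {n : ℕ} :
    Continuous (fun p : ℂ × (Fin n → ℂ) => (Fin.cons p.1 p.2 : Fin (n + 1) → ℂ)) := by
  refine continuous_pi fun i => ?_
  refine Fin.cases ?_ (fun j => ?_) i
  · simpa using continuous_fst
  · simp only [Fin.cons_succ]
    exact (continuous_apply j).comp continuous_snd

theorem setLIntegral_cons {n : ℕ} (z : Fin (n + 1) → ℂ) {r : ℝ} (hr : 0 < r)
    {F : (Fin (n + 1) → ℂ) → ℝ≥0∞} (hF : ContinuousOn F (ball z r)) :
    ∫⁻ w in ball z r, F w =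
      ∫⁻ x in ball (z 0) r, ∫⁻ y in ball (Fin.tail z) r, F (Fin.cons x y) := by
  have hmp := (volume_preserving_piFinSuccAbove (fun _ : Fin (n + 1) => ℂ) 0).symm
  have hsymm : ∀ p : ℂ × (Fin n → ℂ),
      (MeasurableEquiv.piFinSuccAbove (fun _ : Fin (n + 1) => ℂ) 0).symm p =
        (Fin.cons p.1 p.2 : Fin (n + 1) → ℂ) := by
    intro p
    exact Fin.insertNth_zero' p.1 p.2
  have h1 := hmp.setLIntegral_comp_preimage_emb (MeasurableEquiv.measurableEmbedding _) F
    (ball z r)
  have hpre : (MeasurableEquiv.piFinSuccAbove (fun _ : Fin (n + 1) => ℂ) 0).symm ⁻¹' (ball z r) =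
      ball (z 0) r ×ˢ ball (Fin.tail z) r := by
    ext p
    rw [mem_preimage, hsymm p, cons_mem_ball z hr]
    rfl
  rw [hpre] at h1
  rw [← h1]
  have h2 : ∫⁻ a in ball (z 0) r ×ˢ ball (Fin.tail z) r,
      F ((MeasurableEquiv.piFinSuccAbove (fun _ : Fin (n + 1) => ℂ) 0).symm a) =
      ∫⁻ a in ball (z 0) r ×ˢ ball (Fin.tail z) r, F (Fin.cons a.1 a.2) :=
    lintegral_congr fun a => by rw [hsymm a]
  rw [h2, Measure.volume_eq_prod, setLIntegral_prod]
  refine ContinuousOn.aemeasurable ?_ (measurableSet_ball.prod measurableSet_ball)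
  refine hF.comp continuous_cons.continuousOn ?_
  rintro ⟨x, y⟩ ⟨hx, hy⟩
  exact (cons_mem_ball z hr x y).mpr ⟨hx, hy⟩

/-- **Mean value inequality** for `|f|^q`, `q > 0`, `f` holomorphic on a polydisc. -/
theorem mean_rpow {n : ℕ} {f : (Fin n → ℂ) → ℂ} {z : Fin n → ℂ} {r : ℝ} (hr : 0 < r)
    (hf : DifferentiableOn ℂ f (Metric.ball z r)) {q : ℝ} (hq : 0 < q) :
    ENNReal.ofReal (‖f z‖ ^ q) * volume (Metric.ball z r)
      ≤ ∫⁻ w in Metric.ball z r, ENNReal.ofReal (‖f w‖ ^ q) := by
  induction n with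
  | zero =>
    rw [← setLIntegral_const]
    refine le_of_eq (lintegral_congr fun w => ?_)
    rw [Subsingleton.elim w z]
  | succ n ih =>
    have hFc : ContinuousOn (fun w => ENNReal.ofReal (‖f w‖ ^ q)) (ball z r) :=
      ENNReal.continuous_ofReal.comp_continuousOn
        (hf.continuousOn.norm.rpow_const fun x _ => Or.inr hq.le)
    rw [← setLIntegral_const, setLIntegral_cons z hr continuousOn_const,
      setLIntegral_cons z hr hFc]
    have hz : (Fin.cons (z 0) (Fin.tail z) : Fin (n + 1) → ℂ) = z := Fin.cons_self_tail z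
    calc ∫⁻ _ in ball (z 0) r, ∫⁻ _ in ball (Fin.tail z) r, ENNReal.ofReal (‖f z‖ ^ q)
        = (ENNReal.ofReal (‖f z‖ ^ q) * volume (ball (z 0) r)) *
            volume (ball (Fin.tail z) r) := by
          rw [setLIntegral_const, setLIntegral_const]
          ring
      _ ≤ (∫⁻ x in ball (z 0) r, ENNReal.ofReal (‖f (Fin.cons x (Fin.tail z))‖ ^ q)) *
            volume (ball (Fin.tail z) r) := by
          refine mul_le_mul' ?_ le_rfl
          have h1 : DifferentiableOn ℂ (fun x : ℂ => f (Fin.cons x (Fin.tail z)))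
              (ball (z 0) r) := by
            refine hf.comp (differentiable_cons_left (Fin.tail z)).differentiableOn ?_
            intro x hx
            exact (cons_mem_ball z hr x _).mpr ⟨hx, mem_ball_self hr⟩
          have h2 := disc_mean h1 hq
          simp only [hz] at h2
          exact h2
      _ = ∫⁻ x in ball (z 0) r, ENNReal.ofReal (‖f (Fin.cons x (Fin.tail z))‖ ^ q) *
            volume (ball (Fin.tail z) r) := by
          rw [lintegral_mul_const']
          exact measure_ball_lt_top.ne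
      _ ≤ ∫⁻ x in ball (z 0) r, ∫⁻ y in ball (Fin.tail z) r,
            ENNReal.ofReal (‖f (Fin.cons x y)‖ ^ q) := by
          refine setLIntegral_mono' measurableSet_ball fun x hx => ?_
          refine ih ?_
          refine hf.comp (differentiable_cons_right x).differentiableOn ?_
          intro y hy
          exact (cons_mem_ball z hr x y).mpr ⟨hx, hy⟩

end Pool.Agent.Helper49.Abund
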