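import Mathlib

/-!
# Mean value inequality for `|f|^q` on circles
-/

open MeasureTheory Metric Set Filter Topology Real

namespace Pool.Agent.Helper49.Abund

/-- Jensen's inequality: `log |f c|` is at most the circle average. -/
theorem log_le_circleAverage {f : ℂ → ℂ} {c : ℂ} {R : ℝ} (hR : 0 < R)
    (hf : AnalyticOnNhd ℂ f (closedBall c R)) (hc : f c ≠ 0) :
    Real.log ‖f c‖ ≤ circleAverage (fun w => Real.log ‖f w‖) c R := by
  have hf' : AnalyticOnNhd ℂ f (closedBall c |R|) := by rwa [abs_of_pos hR]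
  rw [hf'.circleAverage_log_norm hR.ne' hc]
  have h : 0 ≤ ∑ᶠ u, MeromorphicOn.divisor f (closedBall c |R|) u * Real.log (R * ‖c - u‖⁻¹) := by
    refine finsum_nonneg fun u => ?_
    by_cases hu : u ∈ closedBall c |R|
    · refine mul_nonneg ?_ ?_
      · have := MeromorphicOn.AnalyticOnNhd.divisor_nonneg hf' u
        exact_mod_cast this
      · by_cases hcu : u = c
        · simp [hcu]
        · refine Real.log_nonneg ?_
          have h1 : 0 < ‖c - u‖ := norm_pos_iff.mpr (sub_ne_zero.mpr (Ne.symm hcu))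
          rw [← div_eq_mul_inv, one_le_div h1]
          rw [abs_of_pos hR, mem_closedBall, dist_comm, dist_eq_norm] at hu
          exact hu
    · have : MeromorphicOn.divisor f (closedBall c |R|) u = 0 :=
        Function.locallyFinsuppWithin.apply_eq_zero_of_notMem _ hu
      rw [this]; simp
  linarith

/-- The mean value inequality on circles. -/
theorem circle_mean {f : ℂ → ℂ} {c : ℂ} {R : ℝ} (hR : 0 < R)
    (hf : AnalyticOnNhd ℂ f (closedBall c R)) {q : ℝ} (hq : 0 < q) :
    ‖f c‖ ^ q ≤ circleAverage (fun w => ‖f w‖ ^ q) c R := by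
  by_cases hc : f c = 0
  · rw [hc, norm_zero, Real.zero_rpow hq.ne']
    exact circleAverage_nonneg_of_nonneg fun x _ => by positivity
  have hf' : AnalyticOnNhd ℂ f (closedBall c |R|) := by rwa [abs_of_pos hR]
  have hfs : AnalyticOnNhd ℂ f (sphere c |R|) := hf'.mono sphere_subset_closedBall
  have ha : 0 < ‖f c‖ := norm_pos_iff.mpr hc
  have hJ := log_le_circleAverage hR hf hc
  obtain ⟨L, hL⟩ : ∃ L : ℂ → ℝ, ∀ w, L w = if f w = 0 then Real.log ‖f c‖ - 1 / q
      else Real.log ‖f w‖ := by
    classical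
    exact ⟨_, fun w => rfl⟩
  have hcod : (fun w => Real.log ‖f w‖) =ᶠ[codiscreteWithin (sphere c |R|)] L := by
    have h1 : ∀ᶠ x in codiscreteWithin (closedBall c |R|), f x ≠ 0 := by
      rcases hf'.eqOn_zero_or_eventually_ne_zero_of_preconnected
        (convex_closedBall c |R|).isPreconnected with h | h
      · exact absurd (h (mem_closedBall_self (abs_nonneg R))) hc
      · exact h
    have h2 := codiscreteWithin_mono (sphere_subset_closedBall (x := c) (ε := |R|)) h1
    filter_upwards [h2] with w hw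
    rw [hL w, if_neg hw]
  have hint : CircleIntegrable (fun w => Real.log ‖f w‖) c R :=
    hfs.meromorphicOn.circleIntegrable_log_norm
  have hLint : CircleIntegrable L c R := hint.congr_codiscreteWithin hcod
  have hLavg : Real.log ‖f c‖ ≤ circleAverage L c R := by
    rw [← circleAverage_congr_codiscreteWithin hcod hR.ne']
    exact hJ
  have hfint : CircleIntegrable (fun w => ‖f w‖ ^ q) c R := by
    refine ContinuousOn.circleIntegrable' ?_
    exact (hfs.continuousOn.norm).rpow_const fun x _ => Or.inr hq.le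
  -- the tangent line inequality
  have htan : ∀ w, ‖f c‖ ^ q * (1 - q * Real.log ‖f c‖) + (‖f c‖ ^ q * q) • L w ≤
      ‖f w‖ ^ q := by
    intro w
    have hpos : 0 < ‖f c‖ ^ q := Real.rpow_pos_of_pos ha q
    rw [hL w]
    split_ifs with h
    · rw [h, norm_zero, Real.zero_rpow hq.ne', smul_eq_mul]
      have : ‖f c‖ ^ q * (1 - q * Real.log ‖f c‖) +
          ‖f c‖ ^ q * q * (Real.log ‖f c‖ - 1 / q) = 0 := by
        field_simp
        ring
      rw [this]
    · have hw : 0 < ‖f w‖ := norm_pos_iff.mpr h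
      have h1 : ‖f w‖ ^ q = ‖f c‖ ^ q * Real.exp (q * (Real.log ‖f w‖ - Real.log ‖f c‖)) := by
        rw [Real.rpow_def_of_pos hw, Real.rpow_def_of_pos ha, ← Real.exp_add]
        congr 1
        ring
      rw [h1, smul_eq_mul]
      have h2 := Real.add_one_le_exp (q * (Real.log ‖f w‖ - Real.log ‖f c‖))
      nlinarith
  have hfun : CircleIntegrable (fun w => ‖f c‖ ^ q * (1 - q * Real.log ‖f c‖) +
      (‖f c‖ ^ q * q) • L w) c R :=
    (circleIntegrable_const _ c R).add (hLint.const_smul)
  have h3 := circleAverage_mono hfun hfint fun x _ => htan x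
  refine le_trans ?_ h3
  have h4 : circleAverage (fun w => ‖f c‖ ^ q * (1 - q * Real.log ‖f c‖) +
      (‖f c‖ ^ q * q) • L w) c R = ‖f c‖ ^ q * (1 - q * Real.log ‖f c‖) +
      (‖f c‖ ^ q * q) • circleAverage L c R := by
    have h5 : CircleIntegrable (fun w => (‖f c‖ ^ q * q) • L w) c R := hLint.const_smul
    rw [circleAverage_fun_add (circleIntegrable_const _ c R) h5,
      circleAverage_const, circleAverage_fun_smul]
  rw [h4, smul_eq_mul]
  have hpos : 0 < ‖f c‖ ^ q := Real.rpow_pos_of_pos ha q
  have : 0 ≤ ‖f c‖ ^ q * q * (circleAverage L c R - Real.log ‖f c‖) :=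
    mul_nonneg (by positivity) (by linarith)
  nlinarith

end Pool.Agent.Helper49.Abund
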